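import Pool.Agent.H773.CS.Stm

/-!
Most colourings are injective on a small set.
-/

open Finset

namespace Pool.Agent.H10.CS

open Pool.Agent.H773.CS

theorem card_eq_pair (N q : ℕ) (i j : Fin N) (hij : i ≠ j) :
    (univ.filter (fun c : Fin N → Fin q => c i = c j)).card * q = q ^ N := by
  have h1 : ((univ.filter (fun c : Fin N → Fin q => c i = c j)) ×ˢ (univ : Finset (Fin q))).card =
      (univ : Finset (Fin N → Fin q)).card := by
    refine Finset.card_bij' (fun p _ => Function.update p.1 i p.2)
      (fun c _ => (Function.update c i (c j), c i)) ?_ ?_ ?_ ?_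
    · intro p _
      exact mem_univ _
    · intro c _
      rw [mem_product]
      refine ⟨?_, mem_univ _⟩
      rw [mem_filter]
      refine ⟨mem_univ _, ?_⟩
      show Function.update c i (c j) i = Function.update c i (c j) j
      rw [Function.update_self, Function.update_of_ne hij.symm]
    · intro p hp
      rw [mem_product, mem_filter] at hp
      obtain ⟨⟨_, h⟩, _⟩ := hp
      refine Prod.ext ?_ ?_
      · show Function.update (Function.update p.1 i p.2) i (Function.update p.1 i p.2 j) = p.1
        rw [Function.update_idem, Function.update_of_ne hij.symm, ← h, Function.update_eq_self]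
      · show Function.update p.1 i p.2 i = p.2
        rw [Function.update_self]
    · intro c _
      show Function.update (Function.update c i (c j)) i (c i) = c
      rw [Function.update_idem, Function.update_eq_self]
  rw [card_product, Finset.card_univ, Finset.card_univ, Fintype.card_fin, Fintype.card_fun,
    Fintype.card_fin, Fintype.card_fin] at h1
  exact h1

theorem t_col : S_col := by
  intro N q K T hT hq
  have hqR : (0 : ℝ) < q := by exact_mod_cast hq
  set G := univ.filter (fun c : Fin N → Fin q => ∀ i ∈ T, ∀ j ∈ T, c i = c j → i = j) with hG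
  set B := univ.filter (fun c : Fin N → Fin q => ¬ ∀ i ∈ T, ∀ j ∈ T, c i = c j → i = j) with hB
  have hsum : G.card + B.card = q ^ N := by
    have h := Finset.card_filter_add_card_filter_not (s := (univ : Finset (Fin N → Fin q)))
      (fun c : Fin N → Fin q => ∀ i ∈ T, ∀ j ∈ T, c i = c j → i = j)
    rw [Finset.card_univ, Fintype.card_fun, Fintype.card_fin, Fintype.card_fin] at h
    exact h
  have hsub : B ⊆ T.offDiag.biUnion fun p => univ.filter (fun c : Fin N → Fin q => c p.1 = c p.2) := by
    intro c hc
    rw [hB, mem_filter] at hc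
    obtain ⟨_, hc⟩ := hc
    push Not at hc
    obtain ⟨i, hi, j, hj, h1, h2⟩ := hc
    rw [mem_biUnion]
    exact ⟨(i, j), by rw [mem_offDiag]; exact ⟨hi, hj, h2⟩, by
      rw [mem_filter]; exact ⟨mem_univ _, h1⟩⟩
  have hcard : B.card * q ≤ K ^ 2 * q ^ N := by
    calc B.card * q ≤ (∑ p ∈ T.offDiag,
          (univ.filter (fun c : Fin N → Fin q => c p.1 = c p.2)).card) * q :=
          Nat.mul_le_mul_right q ((card_le_card hsub).trans card_biUnion_le)
      _ = ∑ p ∈ T.offDiag, q ^ N := by
          rw [Finset.sum_mul]
          refine Finset.sum_congr rfl fun p hp => ?_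
          rw [mem_offDiag] at hp
          exact card_eq_pair N q p.1 p.2 hp.2.2
      _ = T.offDiag.card * q ^ N := by rw [Finset.sum_const, smul_eq_mul]
      _ ≤ K ^ 2 * q ^ N := by
          refine Nat.mul_le_mul_right _ ?_
          rw [offDiag_card]
          have : T.card * T.card ≤ K * K := Nat.mul_le_mul hT hT
          rw [pow_two]
          omega
  have hR : (B.card : ℝ) * q ≤ (K : ℝ) ^ 2 * (q : ℝ) ^ N := by exact_mod_cast hcard
  have hS : (G.card : ℝ) + B.card = (q : ℝ) ^ N := by exact_mod_cast hsum
  have h3 : (B.card : ℝ) ≤ (K : ℝ) ^ 2 / q * (q : ℝ) ^ N := by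
    rw [div_mul_eq_mul_div, le_div_iff₀ hqR]
    exact hR
  have h4 : (1 - (K : ℝ) ^ 2 / q) * (q : ℝ) ^ N ≤ (G.card : ℝ) := by
    rw [sub_mul, one_mul]
    linarith
  exact h4

end Pool.Agent.H10.CS
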